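import Pool.Agent.H92.KST.Basic

/-!
# Row GDC of `kst_modules`: reduction to good ring elements
-/

set_option autoImplicit false
set_option linter.dupNamespace false
set_option linter.unusedSectionVars false

universe u

namespace Pool.Agent.H1.KST

open Pool.Agent.H92.KST

theorem ht_eq {R : Type u} [CommRing R] [IsNoetherianRing R] {e P : Ideal R} (he : e.IsPrime)
    (he1 : e.height = 1) (hP : P.IsPrime) (hP1 : P.height = 1) (h : e ≤ P) : e = P := by
  by_contra hne
  have hlt : e < P := lt_of_le_of_ne h hne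
  have h2 := Ideal.height_strict_mono_of_isPrime_of_isPrime hlt
  rw [he1, hP1] at h2
  exact lt_irrefl _ h2

/-- elements of `e ^ 2` are small multiples of the uniformizer -/
theorem sq_mem {R F : Type u} [CommRing R] [IsDomain R] [Field F] [Algebra R F]
    [IsFractionRing R F] {e : Ideal R} (he : e.IsPrime) {w : R} (hw0 : w ≠ 0)
    (hw : ∀ x ∈ e, InL {e} (algebraMap R F x / algebraMap R F w)) {c : R} (hc : c ∈ e ^ 2) :
    ∃ s r : R, s ∉ e ∧ r ∈ e ∧ s * c = r * w := by
  rw [pow_two] at hc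
  have hinj : Function.Injective (algebraMap R F) := IsFractionRing.injective R F
  have hwF : algebraMap R F w ≠ 0 := fun h => hw0 (hinj (by rw [h, map_zero]))
  refine Submodule.mul_induction_on hc ?_ ?_
  · intro a ha b hb
    obtain ⟨s, r, hs0, hs, hsr⟩ := hw a ha
    refine ⟨s, r * b, hs e rfl, e.mul_mem_left r hb, hinj ?_⟩
    rw [map_mul, map_mul, map_mul, map_mul, ← hsr]
    field_simp
  · intro x y hx hy
    obtain ⟨s, r, hs, hr, h⟩ := hx
    obtain ⟨s', r', hs', hr', h'⟩ := hy
    refine ⟨s * s', s' * r + s * r', fun hm => ?_, e.add_mem (e.mul_mem_left _ hr)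
      (e.mul_mem_left _ hr'), ?_⟩
    · rcases he.mem_or_mem hm with h1 | h1
      · exact hs h1
      · exact hs' h1
    · linear_combination s' * h + s * h'

theorem pf_GDC (hAV : T_AV.{u}) (hDVR : T_DVR.{u}) (hFIN : T_FIN.{u}) : T_GDC.{u} := by
  classical
  intro R F _ _ _ _ _ _ _ S B hB hBH Pr hmul hinv hgood g hg0 hg
  have hinj : Function.Injective (algebraMap R F) := IsFractionRing.injective R F
  have hSig : S.Sig.Finite := ((hFIN R F).2.2 S).1
  have hne : ∀ x : R, x ≠ 0 → algebraMap R F x ≠ 0 := fun x hx h => hx (hinj (by rw [h, map_zero]))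
  -- ring elements outside all the primes
  have hPr1 : ∀ x : R, x ≠ 0 → (∀ q ∈ S.Sig ∪ B, x ∉ q) → Pr (algebraMap R F x) := by
    intro x hx hq
    apply hgood x hx (fun P hP => hq P (Or.inr hP))
    intro e he
    apply inL_div hx
    rintro q rfl
    exact hq q (Or.inl he)
  have hprime : ∀ q ∈ S.Sig ∪ B, q.IsPrime := by
    rintro q (hq | hq)
    · exact hq.1
    · exact (hBH hq).1
  have hPrOne : Pr 1 := by
    have h := hPr1 1 one_ne_zero (fun q hq h1 => (hprime q hq).ne_top ((Ideal.eq_top_iff_one q).2 h1))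
    rwa [map_one] at h
  have hPrPow : ∀ x : F, x ≠ 0 → Pr x → ∀ k : ℕ, Pr (x ^ k) := by
    intro x hx hPx k
    induction k with
    | zero => rw [pow_zero]; exact hPrOne
    | succ k ih => rw [pow_succ]; exact hmul _ _ (pow_ne_zero _ hx) hx ih hPx
  have hPrZ : ∀ x : F, x ≠ 0 → Pr x → ∀ k : ℤ, Pr (x ^ k) := by
    intro x hx hPx k
    cases k with
    | ofNat k => simpa using hPrPow x hx hPx k
    | negSucc k => rw [zpow_negSucc]; exact hinv _ (pow_ne_zero _ hx) (hPrPow x hx hPx _)
  -- the uniformizers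
  have hw : ∀ e ∈ S.Sig, ∃ w : R, w ≠ 0 ∧ Pr (algebraMap R F w) ∧
      (∀ e' ∈ S.Sig, e' ≠ e → w ∉ e') ∧ (∀ P ∈ B, w ∉ P) ∧
      ∀ f : F, f ≠ 0 → ∃ k : ℤ, UnA e (f * (algebraMap R F w) ^ k) := by
    intro e he
    have hep : e.IsPrime := he.1
    obtain ⟨w, hwe, hw0, hwx, hwk⟩ := hDVR R F e hep he.2.1
    obtain ⟨c, hc, hcP⟩ := hAV R ((S.Sig \ {e}) ∪ B) ((hSig.subset Set.sdiff_subset).union hB) (by
      rintro q (hq | hq)
      · exact hq.1.1
      · exact (hBH hq).1) w (e ^ 2) (by
      rintro q (hq | hq) hle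
      · have := hq.1.1
        have h1 : e ≤ q := Ideal.IsPrime.le_of_pow_le hle
        exact hq.2 (Set.mem_singleton_iff.mpr (ht_eq hep he.2.1 hq.1.1 hq.1.2.1 h1).symm)
      · have := (hBH hq).1
        have h1 : e ≤ q := Ideal.IsPrime.le_of_pow_le hle
        exact (hBH hq).2.2 (h1 he.2.2))
    obtain ⟨s, r, hs, hr, hsr⟩ := sq_mem (F := F) hep hw0 hwx hc
    have hs0 : s ≠ 0 := fun h => hs (h ▸ e.zero_mem)
    have hsr' : s + r ∉ e := fun h => hs (by
      have := e.sub_mem h hr
      rwa [add_sub_cancel_right] at this)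
    have hsr0 : s + r ≠ 0 := fun h => hsr' (h ▸ e.zero_mem)
    have hrel : s * (w + c) = (s + r) * w := by linear_combination hsr
    have hwc0 : w + c ≠ 0 := by
      intro h
      rw [h, mul_zero] at hrel
      exact mul_ne_zero hsr0 hw0 hrel.symm
    -- the quotient is a unit
    have hquot : UnA e (algebraMap R F (w + c) / algebraMap R F w) := by
      have h1 : algebraMap R F (w + c) / algebraMap R F w =
          algebraMap R F (s + r) / algebraMap R F s := by
        rw [div_eq_div_iff (hne w hw0) (hne s hs0), ← map_mul, ← map_mul, mul_comm (w + c) s, hrel]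
      rw [h1]
      exact (unA_alg hsr' hep).div hep (unA_alg hs hep)
    have hout : ∀ q ∈ (S.Sig \ {e}) ∪ B, w + c ∉ q := hcP
    refine ⟨w + c, hwc0, ?_, ?_, ?_, ?_⟩
    · apply hgood _ hwc0 (fun P hP => hout P (Or.inr hP))
      intro e' he'
      by_cases hee : e' = e
      · rw [hee]
        have h1 : algebraMap R F S.p / algebraMap R F (w + c) =
            (algebraMap R F S.p / algebraMap R F w) *
              (algebraMap R F (w + c) / algebraMap R F w)⁻¹ := by
          have := hne w hw0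
          have := hne _ hwc0
          field_simp
        rw [h1]
        exact (hwx _ he.2.2).mul (singleton_prime hep) hquot.2.2
      · apply inL_div hwc0
        rintro q rfl
        exact hout q (Or.inl ⟨he', hee⟩)
    · intro e' he' hee
      exact hout e' (Or.inl ⟨he', hee⟩)
    · intro P hP
      exact hout P (Or.inr hP)
    · intro f hf
      obtain ⟨k, hk⟩ := hwk f hf
      refine ⟨k, ?_⟩
      have h1 : f * (algebraMap R F (w + c)) ^ k = (f * (algebraMap R F w) ^ k) *
          (algebraMap R F (w + c) / algebraMap R F w) ^ k := by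
        rw [div_zpow]
        have := zpow_ne_zero k (hne w hw0)
        field_simp
      rw [h1]
      exact hk.mul hep (hquot.zpow hep k)
  choose! W hW0 hWPr hWout hWB hWk using hw
  choose! K hK using fun e (he : e ∈ S.Sig) => hWk e he g hg0
  -- the product
  have hfac0 : ∀ e ∈ S.Sig, (algebraMap R F (W e)) ^ (K e) ≠ 0 := fun e he =>
    zpow_ne_zero _ (hne _ (hW0 e he))
  have hprod : ∀ s : Finset (Ideal R), (∀ e ∈ s, e ∈ S.Sig) →
      (∏ e ∈ s, (algebraMap R F (W e)) ^ (K e)) ≠ 0 ∧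
        Pr (∏ e ∈ s, (algebraMap R F (W e)) ^ (K e)) := by
    intro s
    induction s using Finset.induction_on with
    | empty => intro _; rw [Finset.prod_empty]; exact ⟨one_ne_zero, hPrOne⟩
    | insert a s ha ih =>
      intro hs
      obtain ⟨h1, h2⟩ := ih (fun e he => hs e (Finset.mem_insert_of_mem he))
      have h3 := hs a (Finset.mem_insert_self a s)
      rw [Finset.prod_insert ha]
      exact ⟨mul_ne_zero (hfac0 a h3) h1, hmul _ _ (hfac0 a h3) h1
        (hPrZ _ (hne _ (hW0 a h3)) (hWPr a h3) _) h2⟩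
  have hprodU : ∀ (q : Ideal R), q.IsPrime → ∀ s : Finset (Ideal R),
      (∀ e ∈ s, e ∈ S.Sig ∧ W e ∉ q) → UnA q (∏ e ∈ s, (algebraMap R F (W e)) ^ (K e)) := by
    intro q hq s
    induction s using Finset.induction_on with
    | empty => intro _; rw [Finset.prod_empty]; exact unA_one hq
    | insert a s ha ih =>
      intro hs
      rw [Finset.prod_insert ha]
      exact ((unA_alg (hs a (Finset.mem_insert_self a s)).2 hq).zpow hq _).mul hq
        (ih fun e he => hs e (Finset.mem_insert_of_mem he))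
  obtain ⟨hp0, hpPr⟩ := hprod hSig.toFinset (fun e he => hSig.mem_toFinset.mp he)
  obtain ⟨Z, hZ⟩ : ∃ Z : F, Z = ∏ e ∈ hSig.toFinset, (algebraMap R F (W e)) ^ (K e) := ⟨_, rfl⟩
  rw [← hZ] at hp0 hpPr
  have hg1 : ∀ q ∈ S.Sig ∪ B, UnA q (g * Z) := by
    rintro q (hq | hq)
    · have hmem : q ∈ hSig.toFinset := hSig.mem_toFinset.mpr hq
      rw [hZ, ← Finset.mul_prod_erase _ _ hmem, ← mul_assoc]
      refine (hK q hq).mul hq.1 (hprodU q hq.1 _ ?_)
      intro e he
      obtain ⟨h1, h2⟩ := Finset.mem_erase.mp he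
      have h3 := hSig.mem_toFinset.mp h2
      exact ⟨h3, hWout e h3 q hq (fun h => h1 h.symm)⟩
    · have hqp := (hBH hq).1
      rw [hZ]
      refine (hg q hq).mul hqp (hprodU q hqp _ ?_)
      intro e he
      have h3 := hSig.mem_toFinset.mp he
      exact ⟨h3, hWB e h3 q hq⟩
  have hgL : InL (S.Sig ∪ B) (g * Z) :=
    inL_of_forall (hSig.union hB) hprime (fun q hq => (hg1 q hq).2.1)
  obtain ⟨s, r, hs0, hs, hsr⟩ := hgL
  have hr : ∀ q ∈ S.Sig ∪ B, r ∉ q := fun q hq =>
    not_mem_of_unA_mul (hprime q hq) (hg1 q hq) (hs q hq) hsr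
  have hr0 : r ≠ 0 := by
    rintro rfl
    rw [map_zero] at hsr
    exact mul_ne_zero (hne s hs0) (mul_ne_zero hg0 hp0) hsr
  have e1 : g = (algebraMap R F r * (algebraMap R F s)⁻¹) * Z⁻¹ := by
    rw [← hsr]
    have := hne s hs0
    field_simp
  rw [e1]
  exact hmul _ _ (mul_ne_zero (hne r hr0) (inv_ne_zero (hne s hs0))) (inv_ne_zero hp0)
    (hmul _ _ (hne r hr0) (inv_ne_zero (hne s hs0)) (hPr1 r hr0 hr)
      (hinv _ (hne s hs0) (hPr1 s hs0 hs))) (hinv _ hp0 hpPr)

end Pool.Agent.H1.KST
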